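import Pool.Agent.H474R2.GE.FA
import Pool.Agent.Helper256.KM.Mertens
import Pool.Agent.W262.RK.Defs

/-!
# Project H: the primes modulo which an integer is a square (helper935)

The two-sided Mertens theorem for the numbers of the roots of `X² - κ`.
-/

set_option autoImplicit false

namespace Pool.Agent.N935.H.MerkA

open Finset Polynomial
open Pool.Agent.W262.RK (PS)
open Pool.Agent.H474R2.PG (rho Sg PR)

/-- the comparison with a function `r` with a two-sided Mertens theorem -/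
theorem compare (κ : ℤ) (hκ : κ ≠ 0) (c : ℝ) (hc0 : 0 ≤ c) (hc1 : c ≤ 1) (r : ℕ → ℝ) (C : ℝ)
    (hr0 : ∀ p : ℕ, p.Prime → 0 ≤ c * r p ∧ c * r p ≤ 1)
    (hrJ : ∀ p : ℕ, p.Prime → ¬ (p : ℤ) ∣ 2 * κ →
      (if jacobiSym κ p = 1 then (1 : ℝ) else 0) = c * r p)
    (hM : ∀ y : ℕ, 3 ≤ y →
      |∑ p ∈ (Icc 1 y).filter Nat.Prime, r p / (p : ℝ) - Real.log (Real.log y)| ≤ C)
    (z : ℕ) (hz : 2 ≤ z) :
    ∃ C' : ℝ, ∀ y : ℕ, z < y → |∑ p ∈ (PS z y).filter (fun p => jacobiSym κ p = 1), 1 / (p : ℝ) -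
      c * Real.log (Real.log y)| ≤ C' := by
  have hC0 : 0 ≤ C := (abs_nonneg _).trans (hM 3 le_rfl)
  set D : Finset ℕ := (2 * κ).natAbs.primeFactors with hD
  have h2κ : (2 * κ).natAbs ≠ 0 := by
    rw [Ne, Int.natAbs_eq_zero]
    exact mul_ne_zero two_ne_zero hκ
  refine ⟨z + D.card + C, fun y hy => ?_⟩
  set g : ℕ → ℝ := fun p => if jacobiSym κ p = 1 then (1 : ℝ) else 0 with hg
  have hg0 : ∀ p, 0 ≤ g p := by
    intro p
    simp only [hg]
    split_ifs <;> norm_num
  have hg1 : ∀ p, g p ≤ 1 := by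
    intro p
    simp only [hg]
    split_ifs <;> norm_num
  have e1 : ∑ p ∈ (PS z y).filter (fun p => jacobiSym κ p = 1), 1 / (p : ℝ) =
      ∑ p ∈ PS z y, g p / (p : ℝ) := by
    rw [sum_filter]
    refine sum_congr rfl fun p _ => ?_
    simp only [hg]
    split_ifs
    · rfl
    · rw [zero_div]
  have hsplit : ∑ p ∈ (Icc 1 y).filter Nat.Prime, g p / (p : ℝ) =
      ∑ p ∈ (Icc 1 z).filter Nat.Prime, g p / (p : ℝ) + ∑ p ∈ PS z y, g p / (p : ℝ) := by
    rw [← sum_union]
    · refine sum_congr ?_ fun _ _ => rfl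
      ext p
      simp only [PS, mem_union, mem_filter, mem_Icc, mem_Ioc]
      constructor
      · rintro ⟨⟨h1, h2⟩, h3⟩
        rcases Nat.lt_or_ge z p with h4 | h4
        · right; exact ⟨⟨h4, h2⟩, h3⟩
        · left; exact ⟨⟨h1, h4⟩, h3⟩
      · rintro (⟨⟨h1, h2⟩, h3⟩ | ⟨⟨h1, h2⟩, h3⟩)
        · exact ⟨⟨h1, by omega⟩, h3⟩
        · exact ⟨⟨by omega, h2⟩, h3⟩
    · rw [Finset.disjoint_left]
      intro p h1 h2
      simp only [PS, mem_filter, mem_Icc, mem_Ioc] at h1 h2
      omega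
  have hA : |∑ p ∈ (Icc 1 z).filter Nat.Prime, g p / (p : ℝ)| ≤ z := by
    refine (abs_sum_le_sum_abs _ _).trans ?_
    calc ∑ p ∈ (Icc 1 z).filter Nat.Prime, |g p / (p : ℝ)|
        ≤ ∑ p ∈ (Icc 1 z).filter Nat.Prime, (1 : ℝ) := by
          refine sum_le_sum fun p hp => ?_
          have hp1 : (1 : ℝ) ≤ p := by
            exact_mod_cast (mem_filter.1 hp).2.one_lt.le
          rw [abs_of_nonneg (div_nonneg (hg0 p) (by linarith)), div_le_one (by linarith)]
          exact (hg1 p).trans hp1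
      _ = (((Icc 1 z).filter Nat.Prime).card : ℝ) := by simp
      _ ≤ z := by
          have h1 : ((Icc 1 z).filter Nat.Prime).card ≤ z := by
            refine (card_filter_le _ _).trans ?_
            simp
          exact_mod_cast h1
  have hB : |∑ p ∈ (Icc 1 y).filter Nat.Prime, (g p - c * r p) / (p : ℝ)| ≤ D.card := by
    refine (abs_sum_le_sum_abs _ _).trans ?_
    calc ∑ p ∈ (Icc 1 y).filter Nat.Prime, |(g p - c * r p) / (p : ℝ)|
        ≤ ∑ p ∈ (Icc 1 y).filter Nat.Prime, (if p ∈ D then (1 : ℝ) else 0) := by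
          refine sum_le_sum fun p hp => ?_
          have hpp := (mem_filter.1 hp).2
          have hp1 : (1 : ℝ) ≤ p := by
            exact_mod_cast hpp.one_lt.le
          by_cases hpD : p ∈ D
          · rw [if_pos hpD, abs_div, abs_of_pos (by linarith : (0 : ℝ) < p),
              div_le_one (by linarith)]
            refine le_trans ?_ hp1
            have h1 := hr0 p hpp
            rw [abs_le]
            constructor
            · linarith [hg0 p]
            · linarith [hg1 p]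
          · rw [if_neg hpD]
            have h1 : ¬ (p : ℤ) ∣ 2 * κ := by
              intro h2
              apply hpD
              rw [hD, Nat.mem_primeFactors]
              exact ⟨hpp, Int.natCast_dvd.1 h2, h2κ⟩
            have h2 : g p = c * r p := hrJ p hpp h1
            rw [h2, sub_self, zero_div, abs_zero]
      _ = ((((Icc 1 y).filter Nat.Prime).filter (fun p => p ∈ D)).card : ℝ) := by
          rw [sum_ite, sum_const_zero, add_zero, sum_const, nsmul_eq_mul, mul_one]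
      _ ≤ D.card := by
          have h1 : (((Icc 1 y).filter Nat.Prime).filter (fun p => p ∈ D)).card ≤ D.card :=
            card_le_card fun p hp => (mem_filter.1 hp).2
          exact_mod_cast h1
  have hE := hM y (by omega)
  have e2 : ∑ p ∈ PS z y, g p / (p : ℝ) - c * Real.log (Real.log y) =
      -∑ p ∈ (Icc 1 z).filter Nat.Prime, g p / (p : ℝ) +
        ∑ p ∈ (Icc 1 y).filter Nat.Prime, (g p - c * r p) / (p : ℝ) +
        c * (∑ p ∈ (Icc 1 y).filter Nat.Prime, r p / (p : ℝ) - Real.log (Real.log y)) := by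
    have e3 : ∑ p ∈ (Icc 1 y).filter Nat.Prime, (g p - c * r p) / (p : ℝ) =
        ∑ p ∈ (Icc 1 y).filter Nat.Prime, g p / (p : ℝ) -
          c * ∑ p ∈ (Icc 1 y).filter Nat.Prime, r p / (p : ℝ) := by
      rw [mul_sum, ← sum_sub_distrib]
      refine sum_congr rfl fun p _ => ?_
      ring
    rw [e3, hsplit]
    ring
  rw [e1, e2]
  have hcE : |c * (∑ p ∈ (Icc 1 y).filter Nat.Prime, r p / (p : ℝ) - Real.log (Real.log y))| ≤
      C := by
    rw [abs_mul, abs_of_nonneg hc0]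
    calc c * |∑ p ∈ (Icc 1 y).filter Nat.Prime, r p / (p : ℝ) - Real.log (Real.log y)|
        ≤ 1 * C := mul_le_mul hc1 hE (abs_nonneg _) zero_le_one
      _ = C := one_mul C
  refine (abs_add_le _ _).trans (add_le_add ((abs_add_le _ _).trans (add_le_add ?_ hB)) hcE)
  rw [abs_neg]
  exact hA

/-- the number of the roots of `X² - κ` modulo `p` -/
theorem rho_eq (κ : ℤ) {p : ℕ} (hp : p.Prime) (hp2 : p ≠ 2) :
    (rho (X ^ 2 - C κ) p : ℝ) = 1 + ((jacobiSym κ p : ℤ) : ℝ) := by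
  haveI : Fact p.Prime := ⟨hp⟩
  haveI : NeZero p := ⟨hp.ne_zero⟩
  have h3 := legendreSym.card_sqrts p hp2 κ
  have h4 : rho (X ^ 2 - C κ) p = {x : ZMod p | x ^ 2 = (κ : ZMod p)}.toFinset.card := by
    unfold rho
    have hiff : ∀ a : ℕ, (p : ℤ) ∣ (X ^ 2 - C κ : ℤ[X]).eval (a : ℤ) ↔
        ((a : ZMod p)) ^ 2 = (κ : ZMod p) := by
      intro a
      rw [eval_sub, eval_pow, eval_X, eval_C, ← ZMod.intCast_zmod_eq_zero_iff_dvd]
      push_cast
      rw [sub_eq_zero]
    refine Finset.card_nbij' (fun a => (a : ZMod p)) (fun x => x.val) ?_ ?_ ?_ ?_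
    · intro a ha
      rw [mem_coe, mem_filter] at ha
      simp only [Set.coe_toFinset, Set.mem_ofPred_eq]
      exact (hiff a).1 ha.2
    · intro x hx
      simp only [Set.coe_toFinset, Set.mem_ofPred_eq] at hx
      rw [mem_coe, mem_filter, mem_range]
      refine ⟨ZMod.val_lt x, (hiff _).2 ?_⟩
      rw [ZMod.natCast_zmod_val]
      exact hx
    · intro a ha
      rw [mem_coe, mem_filter, mem_range] at ha
      exact ZMod.val_cast_of_lt ha.1
    · intro x _
      exact ZMod.natCast_zmod_val x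
  rw [h4]
  have h5 : (({x : ZMod p | x ^ 2 = (κ : ZMod p)}.toFinset.card : ℤ) : ℝ) =
      ((legendreSym p κ + 1 : ℤ) : ℝ) := by rw [h3]
  rw [← jacobiSym.legendreSym.to_jacobiSym]
  push_cast at h5 ⊢
  linarith

theorem irr {κ : ℤ} (hκ : ¬ IsSquare κ) : Irreducible (X ^ 2 - C κ : ℤ[X]) := by
  have hm : (X ^ 2 - C κ : ℤ[X]).Monic := monic_X_pow_sub_C κ (by norm_num)
  have hd : (X ^ 2 - C κ : ℤ[X]).natDegree = 2 := natDegree_X_pow_sub_C
  rw [hm.irreducible_iff_roots_eq_zero_of_degree_le_three (by omega) (by omega),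
    Multiset.eq_zero_iff_forall_notMem]
  intro a ha
  have h1 := (mem_roots'.1 ha).2
  rw [IsRoot, eval_sub, eval_pow, eval_X, eval_C, sub_eq_zero] at h1
  exact hκ ⟨a, by rw [← h1, sq]⟩

/-- the theorem for a nonsquare -/
theorem nonsq (κ : ℤ) (hκ0 : κ ≠ 0) (hκ : ¬ IsSquare κ) (z : ℕ) (hz : 2 ≤ z) :
    ∃ C' : ℝ, ∀ y : ℕ, z < y → |∑ p ∈ (PS z y).filter (fun p => jacobiSym κ p = 1), 1 / (p : ℝ) -
      1 / 2 * Real.log (Real.log y)| ≤ C' := by
  have hd : 0 < (X ^ 2 - C κ : ℤ[X]).natDegree := by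
    rw [natDegree_X_pow_sub_C]
    norm_num
  obtain ⟨C1, -, hC1⟩ := Pool.Agent.H474R2.GE.mertens_rho (X ^ 2 - C κ) (irr hκ) hd
  have hJ : ∀ p : ℕ, p.Prime → jacobiSym κ p = 0 ∨ jacobiSym κ p = 1 ∨ jacobiSym κ p = -1 := by
    intro p _
    exact jacobiSym.trichotomy κ p
  refine compare κ hκ0 (1 / 2) (by norm_num) (by norm_num)
    (fun p => (rho (X ^ 2 - C κ) p : ℝ)) C1 (fun p hp => ?_) (fun p hp hd => ?_) (fun y hy => ?_)
    z hz
  · refine ⟨by positivity, ?_⟩
    by_cases h2 : p = 2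
    · have h1 : rho (X ^ 2 - C κ) p ≤ 2 := by
        unfold rho
        refine (card_filter_le _ _).trans ?_
        rw [card_range, h2]
      have h3 : (rho (X ^ 2 - C κ) p : ℝ) ≤ 2 := by exact_mod_cast h1
      linarith
    · rw [rho_eq κ hp h2]
      rcases hJ p hp with h | h | h <;> rw [h] <;> norm_num
  · have h2 : p ≠ 2 := by
      rintro rfl
      exact hd (Dvd.intro κ rfl)
    have hpκ : ¬ (p : ℤ) ∣ κ := fun h => hd (h.mul_left 2)
    have h0 : jacobiSym κ p ≠ 0 := by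
      haveI : Fact p.Prime := ⟨hp⟩
      rw [← jacobiSym.legendreSym.to_jacobiSym, Ne, legendreSym.eq_zero_iff,
        ZMod.intCast_zmod_eq_zero_iff_dvd]
      exact hpκ
    rw [rho_eq κ hp h2]
    rcases hJ p hp with h | h | h
    · exact absurd h h0
    · rw [if_pos h, h]
      norm_num
    · rw [if_neg (by rw [h]; norm_num), h]
      norm_num
  · have h1 := hC1 (y : ℝ) (by exact_mod_cast hy)
    unfold Sg PR at h1
    rw [Nat.floor_natCast] at h1
    exact h1

/-- the theorem for a square -/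
theorem sq (κ : ℤ) (hκ0 : κ ≠ 0) (hκ : IsSquare κ) (z : ℕ) (hz : 2 ≤ z) :
    ∃ C' : ℝ, ∀ y : ℕ, z < y → |∑ p ∈ (PS z y).filter (fun p => jacobiSym κ p = 1), 1 / (p : ℝ) -
      1 * Real.log (Real.log y)| ≤ C' := by
  obtain ⟨C1, hC1⟩ := Pool.Agent.Helper256.KM.mertens_inv
  refine compare κ hκ0 1 (by norm_num) (by norm_num)
    (fun _ => (1 : ℝ)) C1 (fun p hp => by norm_num) (fun p hp hd => ?_) (fun y hy => hC1 y hy)
    z hz
  obtain ⟨m, rfl⟩ := hκ
  have hpm : ¬ (p : ℤ) ∣ m := fun h => hd ((h.mul_left m).mul_left 2)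
  have h0 : jacobiSym m p ≠ 0 := by
    haveI : Fact p.Prime := ⟨hp⟩
    rw [← jacobiSym.legendreSym.to_jacobiSym, Ne, legendreSym.eq_zero_iff,
      ZMod.intCast_zmod_eq_zero_iff_dvd]
    exact hpm
  have h1 : jacobiSym (m * m) p = 1 := by
    rw [jacobiSym.mul_left]
    rcases jacobiSym.trichotomy m p with h | h | h
    · exact absurd h h0
    · rw [h]; norm_num
    · rw [h]; norm_num
  rw [if_pos h1]
  norm_num

end Pool.Agent.N935.H.MerkA
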