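import Pool.Agent.N870.H.Stm
import Pool.Agent.N935.H.MERKa

/-!
# Project H, MERK: the primes modulo which an integer is a square (helper935)
-/

set_option autoImplicit false

namespace Pool.Agent.N935.H

theorem t_MERK : Pool.Agent.N870.H.S_MERK := by
  intro κ hκ0 z hz
  by_cases hκ : IsSquare κ
  · obtain ⟨C, hC⟩ := MerkA.sq κ hκ0 hκ z hz
    refine ⟨C, fun y hy => ?_⟩
    rw [if_pos hκ]
    exact hC y hy
  · obtain ⟨C, hC⟩ := MerkA.nonsq κ hκ0 hκ z hz
    refine ⟨C, fun y hy => ?_⟩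
    rw [if_neg hκ]
    exact hC y hy

end Pool.Agent.N935.H
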